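import Mathlib

/-! Counting permutations: first and second moments. -/

set_option autoImplicit false

namespace Pool.Agent.Helper925_CV

open Finset

variable {α : Type} [Fintype α] [DecidableEq α]

theorem cnt1 (E : Finset α) (s : α) :
    Fintype.card α * (univ.filter fun σ : Equiv.Perm α => σ s ∈ E).card =
      E.card * (Fintype.card α).factorial := by
  have h1 : ∀ t : α, (univ.filter fun σ : Equiv.Perm α => σ t ∈ E).card =
      (univ.filter fun σ : Equiv.Perm α => σ s ∈ E).card := by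
    intro t
    refine Finset.card_bij (fun σ _ => σ * Equiv.swap s t) ?_ ?_ ?_
    · intro σ hσ
      simpa using hσ
    · intro σ _ σ' _ h
      exact mul_right_cancel h
    · intro σ hσ
      refine ⟨σ * Equiv.swap s t, ?_, ?_⟩
      · simpa using hσ
      · rw [mul_assoc, Equiv.swap_mul_self, mul_one]
  have h2 : ∑ t : α, (univ.filter fun σ : Equiv.Perm α => σ t ∈ E).card =
      ∑ σ : Equiv.Perm α, (univ.filter fun t : α => σ t ∈ E).card := by
    simp only [Finset.card_filter]
    exact Finset.sum_comm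
  have h3 : ∀ σ : Equiv.Perm α, (univ.filter fun t : α => σ t ∈ E).card = E.card := by
    intro σ
    refine Finset.card_bij (fun t _ => σ t) ?_ ?_ ?_
    · intro t ht
      exact (Finset.mem_filter.1 ht).2
    · intro t _ t' _ h
      exact σ.injective h
    · intro u hu
      exact ⟨σ.symm u, by simp [hu], by simp⟩
  rw [Finset.sum_congr rfl fun t _ => h1 t, Finset.sum_congr rfl fun σ _ => h3 σ,
    Finset.sum_const, Finset.sum_const, smul_eq_mul, smul_eq_mul, Finset.card_univ,
    Finset.card_univ, Fintype.card_perm] at h2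
  rw [h2, mul_comm]

theorem cnt2 (E : Finset α) (s s' : α) (hs : s ≠ s') :
    (Fintype.card α * Fintype.card α - Fintype.card α) *
      (univ.filter fun σ : Equiv.Perm α => σ s ∈ E ∧ σ s' ∈ E).card =
      (E.card * E.card - E.card) * (Fintype.card α).factorial := by
  have h1 : ∀ p ∈ (univ : Finset α).offDiag,
      (univ.filter fun σ : Equiv.Perm α => σ p.1 ∈ E ∧ σ p.2 ∈ E).card =
      (univ.filter fun σ : Equiv.Perm α => σ s ∈ E ∧ σ s' ∈ E).card := by
    rintro ⟨t, t'⟩ hp
    have htt : t ≠ t' := by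
      have := Finset.mem_offDiag.1 hp
      exact this.2.2
    simp only
    -- rho maps s to t and s' to t'
    set ρ : Equiv.Perm α := Equiv.swap (Equiv.swap s t s') t' * Equiv.swap s t with hρ
    have hu : Equiv.swap s t s' ≠ t := by
      intro h
      have h2 : Equiv.swap s t s' = Equiv.swap s t s := by rw [h, Equiv.swap_apply_left]
      exact hs ((Equiv.swap s t).injective h2).symm
    have hρs : ρ s = t := by
      rw [hρ, Equiv.Perm.mul_apply, Equiv.swap_apply_left]
      exact Equiv.swap_apply_of_ne_of_ne hu.symm htt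
    have hρs' : ρ s' = t' := by
      rw [hρ, Equiv.Perm.mul_apply, Equiv.swap_apply_left]
    refine Finset.card_bij (fun σ _ => σ * ρ) ?_ ?_ ?_
    · intro σ hσ
      simp only [mem_filter, mem_univ, true_and, Equiv.Perm.mul_apply, hρs, hρs'] at hσ ⊢
      exact hσ
    · intro σ _ σ' _ h
      exact mul_right_cancel h
    · intro σ hσ
      refine ⟨σ * ρ⁻¹, ?_, by rw [mul_assoc, inv_mul_cancel, mul_one]⟩
      have e1 : ρ⁻¹ t = s := by rw [← hρs]; exact ρ.symm_apply_apply s
      have e2 : ρ⁻¹ t' = s' := by rw [← hρs']; exact ρ.symm_apply_apply s'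
      simp only [mem_filter, mem_univ, true_and, Equiv.Perm.mul_apply, e1, e2] at hσ ⊢
      exact hσ
  have h2 : ∑ p ∈ (univ : Finset α).offDiag,
      (univ.filter fun σ : Equiv.Perm α => σ p.1 ∈ E ∧ σ p.2 ∈ E).card =
      ∑ σ : Equiv.Perm α, ((univ : Finset α).offDiag.filter fun p => σ p.1 ∈ E ∧ σ p.2 ∈ E).card := by
    simp only [Finset.card_filter]
    exact Finset.sum_comm
  have h3 : ∀ σ : Equiv.Perm α,
      ((univ : Finset α).offDiag.filter fun p => σ p.1 ∈ E ∧ σ p.2 ∈ E).card =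
      E.card * E.card - E.card := by
    intro σ
    rw [← Finset.offDiag_card]
    refine Finset.card_bij (fun p _ => (σ p.1, σ p.2)) ?_ ?_ ?_
    · intro p hp
      rw [mem_filter, mem_offDiag] at hp
      rw [mem_offDiag]
      exact ⟨hp.2.1, hp.2.2, fun h => hp.1.2.2 (σ.injective h)⟩
    · intro p _ p' _ h
      rw [Prod.mk.injEq] at h
      exact Prod.ext (σ.injective h.1) (σ.injective h.2)
    · intro p hp
      rw [mem_offDiag] at hp
      refine ⟨(σ.symm p.1, σ.symm p.2), ?_, by simp⟩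
      rw [mem_filter, mem_offDiag]
      refine ⟨⟨mem_univ _, mem_univ _, fun h => hp.2.2 (σ.symm.injective h)⟩, ?_, ?_⟩
      · simpa using hp.1
      · simpa using hp.2.1
  rw [Finset.sum_congr rfl h1, Finset.sum_congr rfl fun σ _ => h3 σ,
    Finset.sum_const, Finset.sum_const, smul_eq_mul, smul_eq_mul, Finset.offDiag_card,
    Finset.card_univ, Finset.card_univ, Fintype.card_perm] at h2
  rw [h2, mul_comm]

variable {d : ℕ}

/-- the number of tuples of permutations -/
theorem card_tup (k : ℕ) :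
    (Fintype.card (Fin d → Equiv.Perm (Fin k)) : ℝ) = ((k.factorial : ℕ) : ℝ) ^ d := by
  rw [Fintype.card_fun, Fintype.card_perm, Fintype.card_fin, Fintype.card_fin]
  push_cast
  rfl

theorem tup1 (k : ℕ) (hk : 0 < k) (E : Fin d → Finset (Fin k)) (s : Fin k) :
    ((univ.filter fun π : Fin d → Equiv.Perm (Fin k) => ∀ j, π j s ∈ E j).card : ℝ) =
      (∏ j, ((E j).card : ℝ) / k) * ((k.factorial : ℕ) : ℝ) ^ d := by
  have h1 : (univ.filter fun π : Fin d → Equiv.Perm (Fin k) => ∀ j, π j s ∈ E j) =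
      Fintype.piFinset fun j => univ.filter fun σ : Equiv.Perm (Fin k) => σ s ∈ E j := by
    ext π
    simp [Fintype.mem_piFinset]
  rw [h1, Fintype.card_piFinset, Nat.cast_prod]
  have h2 : ((k.factorial : ℕ) : ℝ) ^ d = ∏ _j : Fin d, ((k.factorial : ℕ) : ℝ) := by
    rw [Finset.prod_const, Finset.card_univ, Fintype.card_fin]
  rw [h2, ← Finset.prod_mul_distrib]
  refine Finset.prod_congr rfl fun j _ => ?_
  have h3 := cnt1 (E j) s
  rw [Fintype.card_fin] at h3
  have hk' : (k : ℝ) ≠ 0 := by exact_mod_cast hk.ne'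
  have h4 : (k : ℝ) * ((univ.filter fun σ : Equiv.Perm (Fin k) => σ s ∈ E j).card : ℝ) =
      ((E j).card : ℝ) * ((k.factorial : ℕ) : ℝ) := by exact_mod_cast h3
  field_simp
  linarith

theorem tup2 (k : ℕ) (hk : 1 < k) (E : Fin d → Finset (Fin k)) (s s' : Fin k) (hs : s ≠ s') :
    ((univ.filter fun π : Fin d → Equiv.Perm (Fin k) =>
      ∀ j, π j s ∈ E j ∧ π j s' ∈ E j).card : ℝ) ≤
      (∏ j, ((E j).card : ℝ) / k) ^ 2 * ((k.factorial : ℕ) : ℝ) ^ d := by
  have h1 : (univ.filter fun π : Fin d → Equiv.Perm (Fin k) => ∀ j, π j s ∈ E j ∧ π j s' ∈ E j) =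
      Fintype.piFinset fun j =>
        univ.filter fun σ : Equiv.Perm (Fin k) => σ s ∈ E j ∧ σ s' ∈ E j := by
    ext π
    simp [Fintype.mem_piFinset]
  rw [h1, Fintype.card_piFinset, Nat.cast_prod]
  have h2 : ((k.factorial : ℕ) : ℝ) ^ d = ∏ _j : Fin d, ((k.factorial : ℕ) : ℝ) := by
    rw [Finset.prod_const, Finset.card_univ, Fintype.card_fin]
  rw [h2, ← Finset.prod_pow, ← Finset.prod_mul_distrib]
  refine Finset.prod_le_prod (fun j _ => by positivity) fun j _ => ?_
  have h3 := cnt2 (E j) s s' hs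
  rw [Fintype.card_fin] at h3
  have hk' : (0 : ℝ) < k := by exact_mod_cast (by omega : 0 < k)
  have hk1 : (1 : ℝ) < k := by exact_mod_cast hk
  have hEk : (E j).card ≤ k := by
    have := Finset.card_le_univ (E j)
    rwa [Fintype.card_fin] at this
  have hEk' : ((E j).card : ℝ) ≤ k := by exact_mod_cast hEk
  have hE0 : (0 : ℝ) ≤ ((E j).card : ℝ) := Nat.cast_nonneg _
  have hf : (0 : ℝ) ≤ ((k.factorial : ℕ) : ℝ) := Nat.cast_nonneg _
  have h4 : ((k : ℝ) * k - k) *
      ((univ.filter fun σ : Equiv.Perm (Fin k) => σ s ∈ E j ∧ σ s' ∈ E j).card : ℝ) =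
      (((E j).card : ℝ) * (E j).card - (E j).card) * ((k.factorial : ℕ) : ℝ) := by
    have h5 : (((k * k - k : ℕ)) : ℝ) *
      ((univ.filter fun σ : Equiv.Perm (Fin k) => σ s ∈ E j ∧ σ s' ∈ E j).card : ℝ) =
      ((((E j).card * (E j).card - (E j).card : ℕ)) : ℝ) * ((k.factorial : ℕ) : ℝ) := by
      exact_mod_cast h3
    rw [Nat.cast_sub (Nat.le_mul_self k), Nat.cast_sub (Nat.le_mul_self _)] at h5
    push_cast at h5
    exact h5
  have hkk : (0 : ℝ) < (k : ℝ) * k - k := by nlinarith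
  set x := ((univ.filter fun σ : Equiv.Perm (Fin k) => σ s ∈ E j ∧ σ s' ∈ E j).card : ℝ) with hx
  set e := ((E j).card : ℝ) with he
  set f := ((k.factorial : ℕ) : ℝ) with hfd
  have h6 : x = (e * e - e) * f / ((k : ℝ) * k - k) := by
    rw [eq_div_iff hkk.ne']; linarith
  rw [h6, div_le_iff₀ hkk]
  have h7 : (e / k) ^ 2 * f * ((k : ℝ) * k - k) = e ^ 2 * f * (1 - 1 / k) := by
    field_simp
  rw [h7]
  have h8 : e * e - e ≤ e ^ 2 * (1 - 1 / k) := by
    have h9 : e ^ 2 / k ≤ e := by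
      rw [div_le_iff₀ hk']; nlinarith
    have h10 : e ^ 2 * (1 - 1 / k) = e ^ 2 - e ^ 2 / k := by ring
    rw [h10]; nlinarith
  calc (e * e - e) * f ≤ (e ^ 2 * (1 - 1 / k)) * f := mul_le_mul_of_nonneg_right h8 hf
    _ = e ^ 2 * f * (1 - 1 / k) := by ring

/-- second moment bound: few tuples miss the box pattern -/
theorem miss (k : ℕ) (hk : 1 < k) (E : Fin d → Finset (Fin k)) :
    ((univ.filter fun π : Fin d → Equiv.Perm (Fin k) => ¬ ∃ s, ∀ j, π j s ∈ E j).card : ℝ) *
      (k * ∏ j, ((E j).card : ℝ) / k) ≤ ((k.factorial : ℕ) : ℝ) ^ d := by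
  classical
  obtain ⟨p, hp⟩ : ∃ p : ℝ, ∏ j, ((E j).card : ℝ) / k = p := ⟨_, rfl⟩
  obtain ⟨Ω, hΩ⟩ : ∃ Ω : ℝ, ((k.factorial : ℕ) : ℝ) ^ d = Ω := ⟨_, rfl⟩
  have T1 := fun s => tup1 k (by omega) E s
  have T2 := fun s s' => tup2 k hk E s s'
  have hCT := card_tup (d := d) k
  rw [hΩ] at hCT
  simp only [hp, hΩ] at T1 T2 ⊢
  have hp0 : 0 ≤ p := by
    rw [← hp]
    exact Finset.prod_nonneg fun j _ => by positivity
  have hk' : (0 : ℝ) < k := by exact_mod_cast (by omega : 0 < k)
  have hΩ0 : 0 ≤ Ω := by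
    rw [← hΩ]
    positivity
  set X : (Fin d → Equiv.Perm (Fin k)) → ℝ := fun π =>
    ∑ s : Fin k, if ∀ j, π j s ∈ E j then (1 : ℝ) else 0 with hX
  have hX1 : ∑ π, X π = k * p * Ω := by
    simp only [hX]
    rw [Finset.sum_comm]
    have h1 : ∀ s : Fin k, ∑ π : Fin d → Equiv.Perm (Fin k),
        (if ∀ j, π j s ∈ E j then (1 : ℝ) else 0) = p * Ω := by
      intro s
      rw [← T1 s, Finset.sum_boole]
    rw [Finset.sum_congr rfl fun s _ => h1 s, Finset.sum_const, Finset.card_univ,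
      Fintype.card_fin, nsmul_eq_mul]
    ring
  have hX2 : ∑ π, X π ^ 2 ≤ k * p * Ω + (k * p) ^ 2 * Ω := by
    have h1 : ∀ π, X π ^ 2 = ∑ s : Fin k, ∑ s' : Fin k,
        (if ∀ j, π j s ∈ E j ∧ π j s' ∈ E j then (1 : ℝ) else 0) := by
      intro π
      simp only [hX]
      rw [sq, Finset.sum_mul_sum]
      refine Finset.sum_congr rfl fun s _ => Finset.sum_congr rfl fun s' _ => ?_
      by_cases h : ∀ j, π j s ∈ E j
      · by_cases h' : ∀ j, π j s' ∈ E j
        · rw [if_pos h, if_pos h', if_pos fun j => ⟨h j, h' j⟩, mul_one]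
        · rw [if_pos h, if_neg h', mul_zero]
          exact (if_neg fun hh => h' fun j => (hh j).2).symm
      · rw [if_neg h, zero_mul]
        exact (if_neg fun hh => h fun j => (hh j).1).symm
    rw [Finset.sum_congr rfl fun π _ => h1 π, Finset.sum_comm]
    have h2 : ∀ s : Fin k, ∑ π : Fin d → Equiv.Perm (Fin k), ∑ s' : Fin k,
        (if ∀ j, π j s ∈ E j ∧ π j s' ∈ E j then (1 : ℝ) else 0) ≤ p * Ω + k * (p ^ 2 * Ω) := by
      intro s
      rw [Finset.sum_comm]
      have h3 : ∀ s' : Fin k, ∑ π : Fin d → Equiv.Perm (Fin k),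
          (if ∀ j, π j s ∈ E j ∧ π j s' ∈ E j then (1 : ℝ) else 0) ≤
          (if s' = s then p * Ω else 0) + p ^ 2 * Ω := by
        intro s'
        by_cases hss : s' = s
        · subst hss
          rw [if_pos rfl]
          have h4 : ∑ π : Fin d → Equiv.Perm (Fin k),
              (if ∀ j, π j s' ∈ E j ∧ π j s' ∈ E j then (1 : ℝ) else 0) = p * Ω := by
            rw [← T1 s', ← Finset.sum_boole]
            refine Finset.sum_congr rfl fun π _ => ?_
            by_cases h : ∀ j, π j s' ∈ E j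
            · rw [if_pos h]
              exact if_pos fun j => ⟨h j, h j⟩
            · rw [if_neg h]
              exact if_neg fun hh => h fun j => (hh j).1
          rw [h4]
          exact le_add_of_nonneg_right (mul_nonneg (sq_nonneg p) hΩ0)
        · rw [if_neg hss, zero_add, Finset.sum_boole]
          exact T2 s s' (Ne.symm hss)
      refine (Finset.sum_le_sum fun s' _ => h3 s').trans (le_of_eq ?_)
      rw [Finset.sum_add_distrib, Finset.sum_ite_eq' univ s, if_pos (mem_univ s), Finset.sum_const,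
        Finset.card_univ, Fintype.card_fin, nsmul_eq_mul]
    refine (Finset.sum_le_sum fun s _ => h2 s).trans (le_of_eq ?_)
    rw [Finset.sum_const, Finset.card_univ, Fintype.card_fin, nsmul_eq_mul]
    ring
  have hvar : ∑ π : Fin d → Equiv.Perm (Fin k), (X π - k * p) ^ 2 ≤ k * p * Ω := by
    have h1 : ∀ π, (X π - k * p) ^ 2 = X π ^ 2 - 2 * (k * p) * X π + (k * p) ^ 2 := by
      intro π; ring
    rw [Finset.sum_congr rfl fun π _ => h1 π, Finset.sum_add_distrib, Finset.sum_sub_distrib,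
      ← Finset.mul_sum, hX1, Finset.sum_const, nsmul_eq_mul, Finset.card_univ, hCT]
    nlinarith
  have hlow : ((univ.filter fun π : Fin d → Equiv.Perm (Fin k) =>
      ¬ ∃ s, ∀ j, π j s ∈ E j).card : ℝ) * (k * p) ^ 2 ≤
      ∑ π : Fin d → Equiv.Perm (Fin k), (X π - k * p) ^ 2 := by
    rw [← nsmul_eq_mul, ← Finset.sum_const]
    refine le_trans (le_of_eq ?_) (Finset.sum_le_sum_of_subset_of_nonneg (Finset.filter_subset
      (fun π : Fin d → Equiv.Perm (Fin k) => ¬ ∃ s, ∀ j, π j s ∈ E j) univ)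
      fun π _ _ => sq_nonneg _)
    refine Finset.sum_congr rfl fun π hπ => ?_
    have h1 : X π = 0 := by
      simp only [hX]
      refine Finset.sum_eq_zero fun s _ => ?_
      rw [if_neg]
      intro h
      exact (Finset.mem_filter.1 hπ).2 ⟨s, h⟩
    rw [h1]
    ring
  rcases eq_or_lt_of_le hp0 with h0 | h0
  · rw [← h0, mul_zero, mul_zero]
    exact hΩ0
  · have hkp : 0 < k * p := mul_pos hk' h0
    have h1 := hlow.trans hvar
    have h2 : ((univ.filter fun π : Fin d → Equiv.Perm (Fin k) =>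
      ¬ ∃ s, ∀ j, π j s ∈ E j).card : ℝ) * (k * p) * (k * p) ≤ Ω * (k * p) := by nlinarith
    exact le_of_mul_le_mul_right h2 hkp

end Pool.Agent.Helper925_CV
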