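import Mathlib

/-! Numbers `a^x b^y` for multiplicatively independent `a, b` have ratio density. -/

set_option autoImplicit false

namespace Pool.Agent.Helper925_CV

/-- geometric progression step -/
theorem prog (a b : ℕ) (ha : 1 < a) (hb : 1 < b) (i j : ℕ) (δ : ℝ) (hδ : 0 < δ)
    (h : (i : ℝ) * Real.log a - j * Real.log b = δ) :
    ∃ K0 : ℕ, ∀ K : ℕ, K0 ≤ K → ∃ x y : ℕ, 0 < a ^ x * b ^ y ∧ a ^ x * b ^ y ≤ K ∧
      Real.log K < Real.log ((a ^ x * b ^ y : ℕ) : ℝ) + δ := by
  have hb' : (1 : ℝ) < b := by exact_mod_cast hb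
  have ha' : (1 : ℝ) < a := by exact_mod_cast ha
  have hlb : 0 < Real.log b := Real.log_pos hb'
  set Q := ⌊Real.log b / δ⌋₊ with hQ
  refine ⟨b ^ (Q * j), fun K hK => ?_⟩
  have hKpos : 0 < K := lt_of_lt_of_le (pow_pos (by omega) _) hK
  have hK' : (0 : ℝ) < K := by exact_mod_cast hKpos
  set e := Nat.log b K with he
  have h1 : b ^ e ≤ K := Nat.pow_log_le_self b hKpos.ne'
  have h2 : K < b ^ (e + 1) := Nat.lt_pow_succ_log_self hb K
  have h3 : Q * j ≤ e := by
    have := (Nat.le_log_iff_pow_le hb hKpos.ne').2 hK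
    exact this
  have h1' : (e : ℝ) * Real.log b ≤ Real.log K := by
    rw [← Real.log_pow]
    exact Real.log_le_log (by positivity) (by exact_mod_cast h1)
  have h2' : Real.log K < ((e : ℝ) + 1) * Real.log b := by
    have h4 : Real.log K < Real.log ((b : ℝ) ^ (e + 1)) :=
      Real.log_lt_log hK' (by exact_mod_cast h2)
    rw [Real.log_pow] at h4
    push_cast at h4
    exact h4
  set q := ⌊(Real.log K - e * Real.log b) / δ⌋₊ with hq
  have hqQ : q ≤ Q := by
    apply Nat.floor_le_floor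
    apply div_le_div_of_nonneg_right _ hδ.le
    linarith
  have hqj : q * j ≤ e := (Nat.mul_le_mul_right j hqQ).trans h3
  have hq1 : (q : ℝ) * δ ≤ Real.log K - e * Real.log b := by
    rw [← le_div_iff₀ hδ]
    exact Nat.floor_le (div_nonneg (by linarith) hδ.le)
  have hq2 : Real.log K - e * Real.log b < ((q : ℝ) + 1) * δ := by
    rw [← div_lt_iff₀ hδ]
    exact Nat.lt_floor_add_one _
  have hpos : 0 < a ^ (q * i) * b ^ (e - q * j) :=
    Nat.mul_pos (pow_pos (by omega) _) (pow_pos (by omega) _)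
  have hlog : Real.log ((a ^ (q * i) * b ^ (e - q * j) : ℕ) : ℝ) = e * Real.log b + q * δ := by
    push_cast
    rw [Real.log_mul (by positivity) (by positivity), Real.log_pow, Real.log_pow,
      Nat.cast_sub hqj]
    push_cast
    rw [← h]
    ring
  refine ⟨q * i, e - q * j, hpos, ?_, ?_⟩
  · have h5 : Real.log ((a ^ (q * i) * b ^ (e - q * j) : ℕ) : ℝ) ≤ Real.log K := by
      rw [hlog]; linarith
    have h6 := (Real.log_le_log_iff (by exact_mod_cast hpos) hK').1 h5
    exact_mod_cast h6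
  · rw [hlog]
    linarith

/-- density of the ratios -/
theorem smooth (a b : ℕ) (ha : 1 < a) (hb : 1 < b)
    (hab : ∀ i j : ℕ, a ^ i = b ^ j → i = 0) (ε : ℝ) (hε : 0 < ε) :
    ∃ K0 : ℕ, ∀ K : ℕ, K0 ≤ K → ∃ x y : ℕ, 0 < a ^ x * b ^ y ∧ a ^ x * b ^ y ≤ K ∧
      Real.log K < Real.log ((a ^ x * b ^ y : ℕ) : ℝ) + ε := by
  have hb' : (1 : ℝ) < b := by exact_mod_cast hb
  have ha' : (1 : ℝ) < a := by exact_mod_cast ha
  have hlb : 0 < Real.log b := Real.log_pos hb'
  have hla : 0 < Real.log a := Real.log_pos ha'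
  obtain ⟨n, hn⟩ := exists_nat_gt (Real.log b / ε)
  have hn0 : 0 < n := by
    have : (0 : ℝ) < n := lt_trans (by positivity) hn
    exact_mod_cast this
  obtain ⟨j, k, hk, hkn, hjk⟩ := Real.exists_int_int_abs_mul_sub_le (Real.log a / Real.log b) hn0
  have hn1 : (1 : ℝ) / (n + 1) ≤ 1 := by
    rw [div_le_one (by positivity)]
    have : (0 : ℝ) ≤ n := Nat.cast_nonneg n
    linarith
  have hk' : (0 : ℝ) < k := by exact_mod_cast hk
  have hξ : 0 < Real.log a / Real.log b := by positivity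
  have hj : 0 ≤ j := by
    by_contra hneg
    push Not at hneg
    have hj1 : (j : ℝ) ≤ -1 := by
      have : j ≤ -1 := by omega
      exact_mod_cast this
    have h1 : (1 : ℝ) < (k : ℝ) * (Real.log a / Real.log b) - j := by
      have := mul_pos hk' hξ
      linarith
    have h2 := le_abs_self ((k : ℝ) * (Real.log a / Real.log b) - j)
    linarith
  obtain ⟨j', rfl⟩ := Int.eq_ofNat_of_zero_le hj
  obtain ⟨k', rfl⟩ := Int.eq_ofNat_of_zero_le hk.le
  have hk0 : 0 < k' := by exact_mod_cast hk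
  have hne : (k' : ℝ) * Real.log a ≠ j' * Real.log b := by
    intro h
    have h1 : Real.log ((a : ℝ) ^ k') = Real.log ((b : ℝ) ^ j') := by
      rw [Real.log_pow, Real.log_pow]; exact h
    have h2 : (a : ℝ) ^ k' = (b : ℝ) ^ j' :=
      Real.log_injOn_pos (Set.mem_Ioi.2 (by positivity)) (Set.mem_Ioi.2 (by positivity)) h1
    have h3 : a ^ k' = b ^ j' := by exact_mod_cast h2
    have := hab k' j' h3
    omega
  have hsmall : |(k' : ℝ) * Real.log a - j' * Real.log b| < ε := by
    have h1 : (k' : ℝ) * Real.log a - j' * Real.log b =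
        ((k' : ℝ) * (Real.log a / Real.log b) - j') * Real.log b := by
      field_simp
    rw [h1, abs_mul, abs_of_pos hlb]
    have h2 : |(k' : ℝ) * (Real.log a / Real.log b) - j'| ≤ 1 / (n + 1) := by
      simpa using hjk
    have h3 : |(k' : ℝ) * (Real.log a / Real.log b) - j'| * Real.log b ≤ 1 / (n + 1) * Real.log b :=
      mul_le_mul_of_nonneg_right h2 hlb.le
    have h4 : 1 / ((n : ℝ) + 1) * Real.log b < ε := by
      rw [div_mul_eq_mul_div, one_mul, div_lt_iff₀ (by positivity)]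
      rw [div_lt_iff₀ hε] at hn
      nlinarith
    linarith
  rcases lt_or_gt_of_ne hne with h | h
  · -- j' log b - k' log a > 0
    obtain ⟨K0, hK0⟩ := prog b a hb ha j' k' (j' * Real.log b - k' * Real.log a)
      (by linarith) rfl
    refine ⟨K0, fun K hK => ?_⟩
    obtain ⟨x, y, h1, h2, h3⟩ := hK0 K hK
    rw [mul_comm] at h1 h2
    rw [mul_comm (b ^ x) (a ^ y)] at h3
    refine ⟨y, x, h1, h2, ?_⟩
    have h4 : (j' * Real.log b - k' * Real.log a) < ε := by
      have := neg_abs_le ((k' : ℝ) * Real.log a - j' * Real.log b)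
      linarith
    linarith
  · obtain ⟨K0, hK0⟩ := prog a b ha hb k' j' (k' * Real.log a - j' * Real.log b)
      (by linarith) rfl
    refine ⟨K0, fun K hK => ?_⟩
    obtain ⟨x, y, h1, h2, h3⟩ := hK0 K hK
    refine ⟨x, y, h1, h2, ?_⟩
    have h4 : (k' * Real.log a - j' * Real.log b) < ε := by
      have := le_abs_self ((k' : ℝ) * Real.log a - j' * Real.log b)
      linarith
    linarith

end Pool.Agent.Helper925_CV
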