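import Pool.Agent.R612.TG.LIM2
import Pool.Agent.Helper925_CV.Smooth

/-! Convergence from homogeneity at two multiplicatively independent ratios. -/

set_option autoImplicit false

namespace Pool.Agent.Helper925_CV

open Filter Topology

open Classical in
/-- the largest number `a^x b^y ≤ K` -/
noncomputable def top2 (a b K : ℕ) : ℕ :=
  ((Finset.range (K + 1)).filter fun N => ∃ x y : ℕ, N = a ^ x * b ^ y).sup id

theorem top2_ge (a b K x y : ℕ) (h : a ^ x * b ^ y ≤ K) : a ^ x * b ^ y ≤ top2 a b K := by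
  classical
  unfold top2
  exact Finset.le_sup (f := id) (Finset.mem_filter.2 ⟨Finset.mem_range.2 (by omega), x, y, rfl⟩)

theorem top2_mem (a b K : ℕ) (hK : 0 < K) :
    top2 a b K ≤ K ∧ ∃ x y : ℕ, top2 a b K = a ^ x * b ^ y := by
  classical
  have hne : ((Finset.range (K + 1)).filter fun N => ∃ x y : ℕ, N = a ^ x * b ^ y).Nonempty :=
    ⟨1, Finset.mem_filter.2 ⟨Finset.mem_range.2 (by omega), 0, 0, by simp⟩⟩
  obtain ⟨N, hN, hN2⟩ := Finset.exists_mem_eq_sup _ hne id
  rw [Finset.mem_filter, Finset.mem_range] at hN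
  have : top2 a b K = N := hN2
  rw [this]
  exact ⟨by omega, hN.2⟩

theorem liminf_top2 (p a b : ℕ) (ha : 1 < a) (hb : 1 < b)
    (hab : ∀ i j : ℕ, a ^ i = b ^ j → i = 0) :
    1 ≤ liminf (fun K : ℕ => ((top2 a b K ^ p : ℕ) : ENNReal) / ((K : ENNReal) ^ p)) atTop := by
  have key : ∀ n : ℕ, ENNReal.ofReal (Real.exp (-(1 / ((n : ℝ) + 1)))) ≤
      liminf (fun K : ℕ => ((top2 a b K ^ p : ℕ) : ENNReal) / ((K : ENNReal) ^ p)) atTop := by
    intro n
    refine le_liminf_of_le (by isBoundedDefault) ?_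
    obtain ⟨K0, hK0⟩ := smooth a b ha hb hab (1 / ((n : ℝ) + 1) / (p + 1)) (by positivity)
    filter_upwards [eventually_ge_atTop K0, eventually_gt_atTop 0] with K hK hK1
    obtain ⟨x, y, h1, h2, h3⟩ := hK0 K hK
    have hKr : (0 : ℝ) < K := by exact_mod_cast hK1
    set N := top2 a b K with hN
    have hN0 : 0 < N := lt_of_lt_of_le h1 (top2_ge a b K x y h2)
    have hNr : (0 : ℝ) < N := by exact_mod_cast hN0
    have h4 : Real.log K < Real.log N + 1 / ((n : ℝ) + 1) / (p + 1) := by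
      have : Real.log ((a ^ x * b ^ y : ℕ) : ℝ) ≤ Real.log N :=
        Real.log_le_log (by exact_mod_cast h1) (by exact_mod_cast top2_ge a b K x y h2)
      linarith
    have h5 : Real.exp (-(1 / ((n : ℝ) + 1))) ≤ ((N : ℝ) / K) ^ p := by
      rw [← Real.exp_log (pow_pos (div_pos hNr hKr) p)]
      apply Real.exp_le_exp.2
      rw [Real.log_pow, Real.log_div hNr.ne' hKr.ne']
      have hp : (0 : ℝ) ≤ p := Nat.cast_nonneg p
      have h6 : (p : ℝ) * (-(1 / ((n : ℝ) + 1) / (p + 1))) ≤ p * (Real.log N - Real.log K) := by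
        apply mul_le_mul_of_nonneg_left _ hp
        linarith
      have h7 : -(1 / ((n : ℝ) + 1)) ≤ (p : ℝ) * (-(1 / ((n : ℝ) + 1) / (p + 1))) := by
        have h8 : (0 : ℝ) < 1 / ((n : ℝ) + 1) := by positivity
        have h9 : (p : ℝ) * (-(1 / ((n : ℝ) + 1) / (p + 1))) =
            -(1 / ((n : ℝ) + 1)) * (p / (p + 1)) := by ring
        rw [h9]
        have h10 : (p : ℝ) / (p + 1) ≤ 1 := by
          rw [div_le_one (by positivity)]; linarith
        nlinarith
      linarith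
    refine (ENNReal.ofReal_le_ofReal h5).trans (le_of_eq ?_)
    rw [div_pow, ENNReal.ofReal_div_of_pos (by positivity), ENNReal.ofReal_pow (by positivity),
      ENNReal.ofReal_pow (by positivity), ENNReal.ofReal_natCast, ENNReal.ofReal_natCast]
    push_cast
    rfl
  have ht : Tendsto (fun n : ℕ => ENNReal.ofReal (Real.exp (-(1 / ((n : ℝ) + 1))))) atTop
      (𝓝 1) := by
    have h1 : Tendsto (fun n : ℕ => Real.exp (-(1 / ((n : ℝ) + 1)))) atTop (𝓝 (Real.exp (-0))) :=
      (Real.continuous_exp.tendsto _).comp (tendsto_one_div_add_atTop_nhds_zero_nat.neg)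
    have h2 := ENNReal.tendsto_ofReal h1
    simpa using h2
  exact le_of_tendsto' ht key

theorem conv2 (p a b : ℕ) (ha : 1 < a) (hb : 1 < b) (hab : ∀ i j : ℕ, a ^ i = b ^ j → i = 0)
    (F : ℕ → ℕ) (hF : Monotone F) (h1 : ∀ m : ℕ, a ^ p * F m ≤ F (a * m))
    (h2 : ∀ m : ℕ, b ^ p * F m ≤ F (b * m)) :
    Tendsto (fun n : ℕ => ((F n : ℕ) : ENNReal) / ((n : ENNReal) ^ p)) atTop
      (𝓝 (⨆ m : {m : ℕ // 0 < m}, ((F m : ℕ) : ENNReal) / ((m : ENNReal) ^ p))) := by
  have hpow : ∀ x y m : ℕ, (a ^ x * b ^ y) ^ p * F m ≤ F ((a ^ x * b ^ y) * m) := by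
    intro x
    induction x with
    | zero =>
      intro y
      induction y with
      | zero => intro m; simp
      | succ y ih =>
        intro m
        have h3 := ih (b * m)
        have h4 := Nat.mul_le_mul_left ((a ^ 0 * b ^ y) ^ p) (h2 m)
        calc (a ^ 0 * b ^ (y + 1)) ^ p * F m = (a ^ 0 * b ^ y) ^ p * (b ^ p * F m) := by
              rw [pow_succ, ← mul_assoc, ← mul_assoc, mul_pow]
          _ ≤ _ := h4
          _ ≤ _ := h3
          _ = _ := by congr 1; ring
    | succ x ih =>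
      intro y m
      have h3 := ih y (a * m)
      have h4 := Nat.mul_le_mul_left ((a ^ x * b ^ y) ^ p) (h1 m)
      calc (a ^ (x + 1) * b ^ y) ^ p * F m = (a ^ x * b ^ y) ^ p * (a ^ p * F m) := by
            rw [pow_succ, mul_pow, mul_pow, mul_pow]; ring
        _ ≤ _ := h4
        _ ≤ _ := h3
        _ = _ := by congr 1; ring
  have hlow : ∀ m : ℕ, 0 < m → ((F m : ℕ) : ENNReal) / ((m : ENNReal) ^ p) ≤
      liminf (fun n : ℕ => ((F n : ℕ) : ENNReal) / ((n : ENNReal) ^ p)) atTop := by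
    intro m hm
    have h := Pool.Agent.R612.TG.lim2 p F (fun K => top2 a b K ^ p) hF (by
      intro K m hK _
      obtain ⟨h3, x, y, h4⟩ := top2_mem a b K hK
      calc top2 a b K ^ p * F m ≤ F (top2 a b K * m) := by rw [h4]; exact hpow x y m
        _ ≤ F (K * m) := hF (Nat.mul_le_mul_right m h3)) m hm
    refine le_trans ?_ h
    calc ((F m : ℕ) : ENNReal) / ((m : ENNReal) ^ p)
        = 1 * (((F m : ℕ) : ENNReal) / ((m : ENNReal) ^ p)) := (one_mul _).symm
      _ ≤ _ := mul_le_mul_left (liminf_top2 p a b ha hb hab) _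
  refine tendsto_of_le_liminf_of_limsup_le (iSup_le fun m => hlow m.1 m.2) ?_
  refine limsup_le_of_le (by isBoundedDefault) ?_
  filter_upwards [eventually_gt_atTop 0] with m hm
  exact le_iSup (fun m : {m : ℕ // 0 < m} => ((F m : ℕ) : ENNReal) / ((m : ENNReal) ^ p)) ⟨m, hm⟩

end Pool.Agent.Helper925_CV
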