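import Pool.Agent.Helper925_CV.Lat

/-! A deterministic criterion for rigidity of permutation matrices. -/

set_option autoImplicit false

namespace Pool.Agent.Helper925_CV

open Pool.Agent.R612.TG

variable {d k : ℕ}

/-- the `d`-dimensional permutation matrix with the ones at `(π_1 s, …, π_d s)` -/
def pm (π : Fin d → Equiv.Perm (Fin k)) : Finset (Fin d → Fin k) :=
  Finset.univ.image fun s i => π i s

theorem jump (g : ℕ → ℕ) (hg : Monotone g) (M : ℕ) :
    ((Finset.range M).filter fun r => g r < g (r + 1)).card + g 0 ≤ g M := by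
  induction M with
  | zero => simp
  | succ M ih =>
    rw [Finset.range_add_one, Finset.filter_insert]
    split_ifs with h
    · rw [Finset.card_insert_of_notMem (by simp)]
      omega
    · have := hg (Nat.le_succ M)
      exact ih.trans this

theorem eq_of_dvd_add {N a b S : ℕ} (h1 : N ∣ a + S) (h2 : N ∣ b + S) (ha : a < N) (hb : b < N) :
    a = b := by
  have h3 : (N : ℤ) ∣ (a : ℤ) - b := by
    have h4 : (N : ℤ) ∣ ((a + S : ℕ) : ℤ) := by exact_mod_cast h1
    have h5 : (N : ℤ) ∣ ((b + S : ℕ) : ℤ) := by exact_mod_cast h2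
    have h6 := dvd_sub h4 h5
    push_cast at h6
    have e : (a : ℤ) + S - (b + S) = a - b := by ring
    rwa [e] at h6
  have h7 := Int.eq_zero_of_abs_lt_dvd h3 (by rw [abs_lt]; constructor <;> omega)
  omega

/-- extreme positions -/
def Xt (k τ t : ℕ) : Prop := t < τ ∨ k ≤ t + τ

instance (k τ t : ℕ) : Decidable (Xt k τ t) := by unfold Xt; infer_instance

theorem card_xt (k τ : ℕ) :
    (Finset.univ.filter fun t : Fin k => Xt k τ (t : ℕ)).card ≤ 2 * τ := by
  have h1 : (Finset.univ.filter fun t : Fin k => Xt k τ (t : ℕ)).image (fun t : Fin k => (t : ℕ)) ⊆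
      Finset.range τ ∪ Finset.Ico (k - τ) k := by
    intro t ht
    obtain ⟨u, hu, rfl⟩ := Finset.mem_image.1 ht
    have := (Finset.mem_filter.1 hu).2
    unfold Xt at this
    have h2 := u.isLt
    rw [Finset.mem_union, Finset.mem_range, Finset.mem_Ico]
    omega
  rw [← Finset.card_image_of_injective _ Fin.val_injective]
  refine (Finset.card_le_card h1).trans ((Finset.card_union_le _ _).trans ?_)
  rw [Finset.card_range, Nat.card_Ico]
  omega

theorem rig_of (π : Fin d → Equiv.Perm (Fin k)) (τ w M N : ℕ)
    (hX : ∀ s : Fin k, ∀ i j, i ≠ j → ¬ (Xt k τ (π i s) ∧ Xt k τ (π j s)))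
    (hY1 : ∀ i, ∀ r < M, ∃ s, (π i s : ℕ) < τ ∧
      ∀ j, j ≠ i → r * w ≤ (π j s : ℕ) ∧ (π j s : ℕ) < (r + 1) * w)
    (hY2 : ∀ i, ∀ r < M, ∃ s, k ≤ (π i s : ℕ) + τ ∧
      ∀ j, j ≠ i → r * w ≤ (π j s : ℕ) ∧ (π j s : ℕ) < (r + 1) * w)
    (hM : (d - 1) * (N - 1) < M) (hZ : d * (2 * τ) < k) :
    Rig (fun _ : Fin d => k) (pm π) N := by
  classical
  intro c hc hcN hcd
  have hsum : ∀ s : Fin k, N ∣ ∑ i, c i (π i s) := fun s =>
    hcd (fun i => π i s) (Finset.mem_image_of_mem _ (Finset.mem_univ s))
  have hsplit : ∀ (i : Fin d) (s : Fin k), ∑ j, c j (π j s) =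
      c i (π i s) + ∑ j ∈ Finset.univ.erase i, c j (π j s) := fun i s =>
    (Finset.add_sum_erase _ _ (Finset.mem_univ i)).symm
  -- constant in the middle
  have hmid : ∀ i : Fin d, ∀ u v : Fin k, τ ≤ (u : ℕ) + 1 → (v : ℕ) + τ ≤ k →
      c i v ≤ c i u := by
    intro i u v hu hv
    by_contra hlt
    push Not at hlt
    set C : Fin d → ℕ → ℕ := fun j t => if h : t < k then c j ⟨t, h⟩ else N - 1 with hC
    have hCm : ∀ j, Monotone (C j) := by
      intro j a b hab
      simp only [hC]
      by_cases hb : b < k
      · have ha : a < k := lt_of_le_of_lt hab hb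
        rw [dif_pos ha, dif_pos hb]
        exact hc j (Fin.le_def.2 hab)
      · rw [dif_neg hb]
        split_ifs with ha
        · have := hcN j ⟨a, ha⟩
          omega
        · exact le_rfl
    have hCv : ∀ j (t : Fin k), C j (t : ℕ) = c j t := by
      intro j t
      simp only [hC]
      rw [dif_pos t.isLt]
    have hblock : ∀ r < M, ∃ j ∈ Finset.univ.erase i, C j (r * w) < C j ((r + 1) * w) := by
      intro r hr
      obtain ⟨s, hs1, hs2⟩ := hY1 i r hr
      obtain ⟨s', hs1', hs2'⟩ := hY2 i r hr
      by_contra hno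
      push Not at hno
      have heq : ∀ j ∈ Finset.univ.erase i, c j (π j s) = c j (π j s') := by
        intro j hj
        have hji : j ≠ i := Finset.ne_of_mem_erase hj
        have h1 := hno j hj
        have h2 := hs2 j hji
        have h3 := hs2' j hji
        have a1 := hCm j h2.1
        have a2 := hCm j h2.2.le
        have a3 := hCm j h3.1
        have a4 := hCm j h3.2.le
        rw [hCv] at a1 a2 a3 a4
        omega
      have h1 := hsum s
      have h2 := hsum s'
      rw [hsplit i s] at h1
      rw [hsplit i s', ← Finset.sum_congr rfl heq] at h2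
      have h3 := eq_of_dvd_add h1 h2 (hcN _ _) (hcN _ _)
      have h4 : c i (π i s) ≤ c i u := hc i (Fin.le_def.2 (by omega))
      have h5 : c i v ≤ c i (π i s') := hc i (Fin.le_def.2 (by omega))
      omega
    have hcount : M ≤ ∑ j ∈ Finset.univ.erase i,
        ((Finset.range M).filter fun r => C j (r * w) < C j ((r + 1) * w)).card := by
      have h1 : Finset.range M ⊆ (Finset.univ.erase i).biUnion fun j =>
          (Finset.range M).filter fun r => C j (r * w) < C j ((r + 1) * w) := by
        intro r hr
        obtain ⟨j, hj, h⟩ := hblock r (Finset.mem_range.1 hr)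
        exact Finset.mem_biUnion.2 ⟨j, hj, Finset.mem_filter.2 ⟨hr, h⟩⟩
      have h2 := (Finset.card_le_card h1).trans Finset.card_biUnion_le
      rwa [Finset.card_range] at h2
    have hbd : ∀ j ∈ Finset.univ.erase i,
        ((Finset.range M).filter fun r => C j (r * w) < C j ((r + 1) * w)).card ≤ N - 1 := by
      intro j _
      have h1 := jump (fun r => C j (r * w)) (fun a b hab => hCm j (Nat.mul_le_mul_right w hab)) M
      have h2 : C j (M * w) ≤ N - 1 := by
        simp only [hC]
        split_ifs with h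
        · have := hcN j ⟨M * w, h⟩
          omega
        · exact le_rfl
      have h1' : ((Finset.range M).filter fun r => C j (r * w) < C j ((r + 1) * w)).card + C j (0 * w) ≤ C j (M * w) := h1
      omega
    have h3 := hcount.trans (Finset.sum_le_card_nsmul _ _ _ hbd)
    rw [Finset.card_erase_of_mem (Finset.mem_univ i), Finset.card_univ, Fintype.card_fin,
      smul_eq_mul] at h3
    omega
  -- a point without extreme coordinates
  have hs0 : ∃ s0 : Fin k, ∀ i, ¬ Xt k τ (π i s0) := by
    by_contra hno
    push Not at hno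
    have h1 : (Finset.univ : Finset (Fin k)) ⊆ Finset.univ.biUnion fun i : Fin d =>
        Finset.univ.filter fun s : Fin k => Xt k τ (π i s) := by
      intro s _
      obtain ⟨i, hi⟩ := hno s
      exact Finset.mem_biUnion.2 ⟨i, Finset.mem_univ _, Finset.mem_filter.2 ⟨Finset.mem_univ _, hi⟩⟩
    have h2 := (Finset.card_le_card h1).trans Finset.card_biUnion_le
    have h3 : ∀ i ∈ (Finset.univ : Finset (Fin d)),
        (Finset.univ.filter fun s : Fin k => Xt k τ (π i s)).card ≤ 2 * τ := by
      intro i _
      have h4 : (Finset.univ.filter fun s : Fin k => Xt k τ (π i s)).card =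
          (Finset.univ.filter fun t : Fin k => Xt k τ (t : ℕ)).card := by
        refine Finset.card_bij (fun s _ => π i s) ?_ ?_ ?_
        · intro s hs
          exact Finset.mem_filter.2 ⟨Finset.mem_univ _, (Finset.mem_filter.1 hs).2⟩
        · intro s _ t _ h
          exact (π i).injective h
        · intro t ht
          refine ⟨(π i).symm t, Finset.mem_filter.2 ⟨Finset.mem_univ _, ?_⟩, ?_⟩
          · rw [Equiv.apply_symm_apply]
            exact (Finset.mem_filter.1 ht).2
          · exact Equiv.apply_symm_apply _ _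
      rw [h4]
      exact card_xt k τ
    have h5 := h2.trans (Finset.sum_le_card_nsmul _ _ _ h3)
    rw [Finset.card_univ, Finset.card_univ, Fintype.card_fin, Fintype.card_fin, smul_eq_mul] at h5
    omega
  obtain ⟨s0, hs0⟩ := hs0
  have hnx : ∀ (i : Fin d) (s : Fin k), ¬ Xt k τ (π i s) → c i (π i s) = c i (π i s0) := by
    intro i s h
    have h0 := hs0 i
    unfold Xt at h h0
    push Not at h h0
    exact le_antisymm (hmid i _ _ (by omega) (by omega)) (hmid i _ _ (by omega) (by omega))
  have hall : ∀ (i : Fin d) (s : Fin k), c i (π i s) = c i (π i s0) := by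
    intro i s
    by_cases h : Xt k τ (π i s)
    · have h1 := hsum s
      have h2 := hsum s0
      rw [hsplit i s] at h1
      rw [hsplit i s0] at h2
      have heq : ∀ j ∈ Finset.univ.erase i, c j (π j s) = c j (π j s0) := by
        intro j hj
        exact hnx j s fun hj2 => hX s i j (Finset.ne_of_mem_erase hj).symm ⟨h, hj2⟩
      rw [Finset.sum_congr rfl heq] at h1
      exact eq_of_dvd_add h1 h2 (hcN _ _) (hcN _ _)
    · exact hnx i s h
  intro x hx y hy i
  obtain ⟨s, -, rfl⟩ := Finset.mem_image.1 hx
  obtain ⟨t, -, rfl⟩ := Finset.mem_image.1 hy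
  simp only
  rw [hall i s, hall i t]

end Pool.Agent.Helper925_CV
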