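import Pool.Agent.Helper925_CV.Prob
import Pool.Agent.Helper925_CV.Conv

/-! Assembly: convergence for patterns containing a good permutation matrix; counting matrices. -/

set_option autoImplicit false

namespace Pool.Agent.Helper925_CV

open Finset Filter Topology
open Pool.Agent.R612.TG

variable {d : ℕ}

theorem conv_of_rig (hd : 0 < d) (k : Fin d → ℕ) (P : Finset ((i : Fin d) → Fin (k i)))
    (hne : P.Nonempty) (hT : TrimP k P) (a b : ℕ) (ha : 1 < a) (hb : 1 < b)
    (hab : ∀ i j : ℕ, a ^ i = b ^ j → i = 0) (h1 : Rig k P a) (h2 : Rig k P b) :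
    Tendsto (fun n : ℕ => ((ex k P n : ℕ) : ENNReal) / ((n : ENNReal) ^ (d - 1))) atTop
      (𝓝 (⨆ m : {m : ℕ // 0 < m}, ((ex k P m : ℕ) : ENNReal) / ((m : ENNReal) ^ (d - 1)))) :=
  conv2 (d - 1) a b ha hb hab (ex k P) (monotone_nat_of_le_succ fun n => ex_monoP k P hne hT n)
    (fun m => rig_ex hd k P hne hT a (by omega) h1 m)
    (fun m => rig_ex hd k P hne hT b (by omega) h2 m)

theorem two_three (i j : ℕ) (h : 2 ^ i = 3 ^ j) : i = 0 := by
  by_contra hi
  have h1 : 2 ∣ 2 ^ i := dvd_pow_self 2 hi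
  rw [h] at h1
  have := Nat.Prime.dvd_of_dvd_pow Nat.prime_two h1
  omega

theorem conv_of_good (hd : 0 < d) (k τ w M : ℕ) (hk : 0 < k) (π : Fin d → Equiv.Perm (Fin k))
    (hπ : Good k τ w M π) (hM : (d - 1) * 2 < M) (hZ : d * (2 * τ) < k)
    (P : Finset (Fin d → Fin k)) (hP : pm π ⊆ P) :
    Tendsto (fun n : ℕ => ((ex (fun _ => k) P n : ℕ) : ENNReal) / ((n : ENNReal) ^ (d - 1))) atTop
      (𝓝 (⨆ m : {m : ℕ // 0 < m},
        ((ex (fun _ => k) P m : ℕ) : ENNReal) / ((m : ENNReal) ^ (d - 1)))) := by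
  have hmem : ∀ s : Fin k, (fun i => π i s) ∈ P := fun s =>
    hP (Finset.mem_image_of_mem _ (Finset.mem_univ s))
  have hR : ∀ N, N ≤ 3 → Rig (fun _ : Fin d => k) P N := by
    intro N hN
    have h1 := rig_of π τ w M N hπ.1 hπ.2.1 hπ.2.2
      (lt_of_le_of_lt (Nat.mul_le_mul_left _ (by omega)) hM) hZ
    intro c hc hcN hcd x _ y _ i
    have h2 := h1 c hc hcN (fun z hz => hcd z (hP hz))
    have hx := hmem ((π i).symm (x i))
    have hy := hmem ((π i).symm (y i))
    have h3 := h2 (fun j => π j ((π i).symm (x i)))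
      (Finset.mem_image_of_mem _ (Finset.mem_univ _))
      (fun j => π j ((π i).symm (y i))) (Finset.mem_image_of_mem _ (Finset.mem_univ _)) i
    simpa using h3
  refine conv_of_rig hd (fun _ => k) P ⟨_, hmem ⟨0, hk⟩⟩ ?_ 2 3 (by norm_num) (by norm_num)
    two_three (hR 2 (by norm_num)) (hR 3 le_rfl)
  intro i
  refine ⟨⟨_, hmem ((π i).symm ⟨0, hk⟩), ?_⟩, ⟨_, hmem ((π i).symm ⟨k - 1, by omega⟩), ?_⟩⟩
  · simp
  · simp only [Equiv.apply_symm_apply]
    omega

/-- `P` is a `d`-dimensional permutation matrix -/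
def IsPM {k : ℕ} (P : Finset (Fin d → Fin k)) : Prop :=
  ∀ (i : Fin d) (t : Fin k), ∃! x, x ∈ P ∧ x i = t

theorem isPM_pm {k : ℕ} (π : Fin d → Equiv.Perm (Fin k)) : IsPM (pm π) := by
  intro i t
  refine ⟨fun j => π j ((π i).symm t), ⟨Finset.mem_image_of_mem _ (Finset.mem_univ _), by simp⟩, ?_⟩
  rintro x ⟨hx, hxi⟩
  obtain ⟨s, -, rfl⟩ := Finset.mem_image.1 hx
  simp only at hxi
  rw [← hxi]
  simp

theorem exists_pm {k : ℕ} (hd : 0 < d) (P : Finset (Fin d → Fin k)) (hP : IsPM P) :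
    ∃ π : Fin d → Equiv.Perm (Fin k), pm π = P := by
  choose x hx hxu using hP ⟨0, hd⟩
  have hinj : ∀ i, Function.Injective fun s => x s i := by
    intro i s s' h
    simp only at h
    obtain ⟨y, _, hy⟩ := hP i (x s i)
    have h1 := hy (x s) ⟨(hx s).1, rfl⟩
    have h2 := hy (x s') ⟨(hx s').1, h.symm⟩
    rw [← (hx s).2, ← (hx s').2, h1, h2]
  refine ⟨fun i => Equiv.ofBijective (fun s => x s i) (Finite.injective_iff_bijective.1 (hinj i)), ?_⟩
  ext z
  constructor
  · intro hz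
    obtain ⟨s, -, rfl⟩ := Finset.mem_image.1 hz
    exact (hx s).1
  · intro hz
    have h := hxu (z ⟨0, hd⟩) z ⟨hz, rfl⟩
    refine Finset.mem_image.2 ⟨z ⟨0, hd⟩, Finset.mem_univ _, ?_⟩
    funext i
    simp only [Equiv.ofBijective_apply]
    rw [← h]

open Classical in
theorem count (hd : 0 < d) (k : ℕ) (R : Finset (Fin d → Fin k) → Prop) :
    (univ.filter fun π : Fin d → Equiv.Perm (Fin k) => R (pm π)).card =
      k.factorial * (univ.filter fun P : Finset (Fin d → Fin k) => IsPM P ∧ R P).card := by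
  rw [Finset.card_eq_sum_card_fiberwise (f := pm)
    (t := univ.filter fun P : Finset (Fin d → Fin k) => IsPM P ∧ R P)]
  · rw [Finset.sum_const_nat (m := k.factorial), mul_comm]
    intro P hP
    have hP' := (mem_filter.1 hP).2
    obtain ⟨π0, hπ0⟩ := exists_pm hd P hP'.1
    have h1 : (univ : Finset (Equiv.Perm (Fin k))).card = k.factorial := by
      rw [card_univ, Fintype.card_perm, Fintype.card_fin]
    rw [← h1]
    symm
    refine Finset.card_bij (fun ρ _ i => π0 i * ρ) ?_ ?_ ?_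
    · intro ρ _
      have e : pm (fun i => π0 i * ρ) = P := by
        rw [← hπ0]
        ext z
        constructor
        · intro hz
          obtain ⟨s, -, rfl⟩ := Finset.mem_image.1 hz
          exact Finset.mem_image.2 ⟨ρ s, mem_univ _, rfl⟩
        · intro hz
          obtain ⟨s, -, rfl⟩ := Finset.mem_image.1 hz
          refine Finset.mem_image.2 ⟨ρ.symm s, mem_univ _, ?_⟩
          funext i
          simp
      refine mem_filter.2 ⟨mem_filter.2 ⟨mem_univ _, ?_⟩, e⟩
      rw [e]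
      exact hP'.2
    · intro ρ _ ρ' _ h
      exact mul_left_cancel (congrFun h ⟨0, hd⟩)
    · intro π hπ
      have h2 : pm π = pm π0 := by rw [(mem_filter.1 hπ).2, hπ0]
      refine ⟨(π0 ⟨0, hd⟩)⁻¹ * π ⟨0, hd⟩, mem_univ _, ?_⟩
      funext i
      ext s : 1
      have h3 : (fun i => π i s) ∈ pm π0 := by
        rw [← h2]
        exact Finset.mem_image_of_mem _ (Finset.mem_univ s)
      obtain ⟨u, -, hu⟩ := Finset.mem_image.1 h3
      have h4 : π0 ⟨0, hd⟩ u = π ⟨0, hd⟩ s := congrFun hu ⟨0, hd⟩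
      have h5 : π0 i u = π i s := congrFun hu i
      rw [Equiv.Perm.mul_apply, Equiv.Perm.mul_apply, ← h4, ← h5]
      congr 1
      exact (π0 ⟨0, hd⟩).symm_apply_apply u
  · intro π hπ
    rw [Finset.mem_coe, mem_filter] at hπ ⊢
    exact ⟨mem_univ _, isPM_pm π, hπ.2⟩

open Classical in
theorem ratio (hd : 0 < d) (R : (k : ℕ) → Finset (Fin d → Fin k) → Prop)
    (hR : ∀ k τ w M : ℕ, 0 < k → ∀ π : Fin d → Equiv.Perm (Fin k), Good k τ w M π →
      (d - 1) * 2 < M → d * (2 * τ) < k → R k (pm π)) :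
    Tendsto (fun k : ℕ =>
      ((univ.filter fun P : Finset (Fin d → Fin k) => IsPM P ∧ R k P).card : ℝ) /
        ((univ.filter fun P : Finset (Fin d → Fin k) => IsPM P).card : ℝ)) atTop (𝓝 1) := by
  set C : ℝ := 4 * (d : ℝ) ^ 2 + 2 * d * ((2 * d : ℕ) : ℝ) * (2 * ((2 * d : ℕ) : ℝ)) ^ (d - 1)
    with hC
  have hC0 : 0 ≤ C := by positivity
  have hτ : Tendsto (fun k : ℕ => Nat.sqrt (Nat.sqrt k)) atTop atTop := by
    have h1 : Tendsto Nat.sqrt atTop atTop := by
      refine tendsto_atTop_atTop.2 fun b => ⟨b * b, fun a ha => ?_⟩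
      exact Nat.le_sqrt.2 ha
    exact h1.comp h1
  have hlim : Tendsto (fun k : ℕ => 1 - C / ((Nat.sqrt (Nat.sqrt k) : ℕ) : ℝ)) atTop (𝓝 1) := by
    have h1 : Tendsto (fun n : ℕ => C / (n : ℝ)) atTop (𝓝 0) := tendsto_const_div_atTop_nhds_zero_nat C
    have h2 := (h1.comp hτ).const_sub 1
    simpa using h2
  refine tendsto_of_tendsto_of_tendsto_of_le_of_le' hlim tendsto_const_nhds ?_ ?_
  · filter_upwards [hτ.eventually_ge_atTop (2 * d + 1), eventually_ge_atTop (2 * d),
      eventually_ge_atTop 2] with k hk1 hk2 hk3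
    set τ := Nat.sqrt (Nat.sqrt k) with hτd
    have hτ4 : τ ^ 4 ≤ k := by
      have a1 : τ * τ ≤ Nat.sqrt k := Nat.sqrt_le _
      have a2 : Nat.sqrt k * Nat.sqrt k ≤ k := Nat.sqrt_le _
      calc τ ^ 4 = (τ * τ) * (τ * τ) := by ring
        _ ≤ Nat.sqrt k * Nat.sqrt k := Nat.mul_le_mul a1 a1
        _ ≤ k := a2
    have hτ0 : 0 < τ := by omega
    have hτk : τ ≤ k := (Nat.le_self_pow (by norm_num) τ).trans hτ4
    have hkZ : d * (2 * τ) < k := by
      have : τ * τ ≤ k := by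
        calc τ * τ = τ ^ 2 := by ring
          _ ≤ τ ^ 4 := Nat.pow_le_pow_right hτ0 (by norm_num)
          _ ≤ k := hτ4
      nlinarith
    have hM0 : 0 < 2 * d := by omega
    have hw : (k : ℝ) / (2 * ((2 * d : ℕ) : ℝ)) ≤ ((k / (2 * d) : ℕ) : ℝ) := by
      rw [div_le_iff₀ (by positivity)]
      have h1 : 1 ≤ k / (2 * d) := (Nat.one_le_div_iff hM0).2 hk2
      have h2 : k < (k / (2 * d) + 1) * (2 * d) := by
        have := Nat.lt_div_mul_add hM0 (a := k)
        rw [Nat.add_mul, Nat.one_mul]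
        exact this
      have h3 : k ≤ (k / (2 * d)) * (2 * (2 * d)) := by nlinarith
      exact_mod_cast h3
    have hbad := bad (d := d) k τ (k / (2 * d)) (2 * d) hd (by omega) hM0 hτ0 hτk hw
      (Nat.mul_div_le k (2 * d))
    have hf0 : (0 : ℝ) < ((k.factorial : ℕ) : ℝ) := by exact_mod_cast Nat.factorial_pos k
    have hcA := count hd k (R k)
    have hcT := count hd k (fun _ => True)
    simp only [and_true, Finset.filter_true] at hcT
    rw [card_univ] at hcT
    have hT : ((k.factorial : ℕ) : ℝ) ^ d = ((k.factorial : ℕ) : ℝ) *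
        ((univ.filter fun P : Finset (Fin d → Fin k) => IsPM P).card : ℝ) := by
      rw [← card_tup (d := d) k]
      exact_mod_cast hcT
    have hTpos : 0 < ((k.factorial : ℕ) : ℝ) *
        ((univ.filter fun P : Finset (Fin d → Fin k) => IsPM P).card : ℝ) := by
      rw [← hT]; positivity
    have hcompl : ((k.factorial : ℕ) : ℝ) ^ d ≤
        ((univ.filter fun π : Fin d → Equiv.Perm (Fin k) => R k (pm π)).card : ℝ) +
        ((univ.filter fun π : Fin d → Equiv.Perm (Fin k) =>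
          ¬ Good k τ (k / (2 * d)) (2 * d) π).card : ℝ) := by
      rw [← card_tup (d := d) k, ← card_univ]
      have h1 : (univ : Finset (Fin d → Equiv.Perm (Fin k))) ⊆
          (univ.filter fun π : Fin d → Equiv.Perm (Fin k) => R k (pm π)) ∪
          (univ.filter fun π : Fin d → Equiv.Perm (Fin k) =>
            ¬ Good k τ (k / (2 * d)) (2 * d) π) := by
        intro π _
        rw [mem_union, mem_filter, mem_filter]
        by_cases h : Good k τ (k / (2 * d)) (2 * d) π
        · exact Or.inl ⟨mem_univ _, hR k τ _ _ (by omega) π h (by omega) hkZ⟩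
        · exact Or.inr ⟨mem_univ _, h⟩
      exact_mod_cast (Finset.card_le_card h1).trans (Finset.card_union_le _ _)
    have hCb : (4 * (d : ℝ) ^ 2 * τ ^ 2 / k +
        2 * d * ((2 * d : ℕ) : ℝ) * (2 * ((2 * d : ℕ) : ℝ)) ^ (d - 1) / τ) ≤ C / τ := by
      have hτr : (0 : ℝ) < τ := by exact_mod_cast hτ0
      have hkr : (0 : ℝ) < k := by exact_mod_cast (by omega : 0 < k)
      have h1 : (τ : ℝ) ^ 2 / k ≤ 1 / τ := by
        rw [div_le_div_iff₀ hkr hτr]
        have h2 : τ ^ 2 * τ ≤ 1 * k := by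
          rw [one_mul]
          calc τ ^ 2 * τ = τ ^ 3 := by ring
            _ ≤ τ ^ 4 := Nat.pow_le_pow_right hτ0 (by norm_num)
            _ ≤ k := hτ4
        exact_mod_cast h2
      have h2 : 4 * (d : ℝ) ^ 2 * τ ^ 2 / k ≤ 4 * (d : ℝ) ^ 2 / τ := by
        have h3 : 4 * (d : ℝ) ^ 2 * τ ^ 2 / k = 4 * (d : ℝ) ^ 2 * ((τ : ℝ) ^ 2 / k) := by ring
        have h4 : 4 * (d : ℝ) ^ 2 / τ = 4 * (d : ℝ) ^ 2 * (1 / (τ : ℝ)) := by ring
        rw [h3, h4]
        exact mul_le_mul_of_nonneg_left h1 (by positivity)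
      rw [hC, add_div]
      linarith
    have hAr : ((univ.filter fun π : Fin d → Equiv.Perm (Fin k) => R k (pm π)).card : ℝ) =
        ((k.factorial : ℕ) : ℝ) *
        ((univ.filter fun P : Finset (Fin d → Fin k) => IsPM P ∧ R k P).card : ℝ) := by
      exact_mod_cast hcA
    have hTp : (0 : ℝ) < ((univ.filter fun P : Finset (Fin d → Fin k) => IsPM P).card : ℝ) :=
      pos_of_mul_pos_right hTpos hf0.le
    rw [le_div_iff₀ hTp]
    have h6 := hbad.trans (mul_le_mul_of_nonneg_right hCb (by positivity))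
    rw [hT] at h6 hcompl
    rw [hAr] at hcompl
    have h7 : ((k.factorial : ℕ) : ℝ) *
        ((1 - C / τ) * ((univ.filter fun P : Finset (Fin d → Fin k) => IsPM P).card : ℝ)) ≤
        ((k.factorial : ℕ) : ℝ) *
        ((univ.filter fun P : Finset (Fin d → Fin k) => IsPM P ∧ R k P).card : ℝ) := by
      nlinarith
    exact le_of_mul_le_mul_left h7 hf0
  · filter_upwards with k
    apply div_le_one_of_le₀ _ (Nat.cast_nonneg _)
    exact Nat.cast_le.2 (Finset.card_le_card fun P hP => by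
      rw [mem_filter] at hP ⊢
      exact ⟨hP.1, hP.2.1⟩)

end Pool.Agent.Helper925_CV
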