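import Pool.Agent.R612.TG.Defs2
import Pool.Agent.R612.TG.EXB
import Pool.Agent.R612.TG.EXT
import Pool.Agent.R612.TG.BLK
import Pool.Agent.R612.TG.MON

/-! Blocks along a set which pins the pattern. -/

set_option autoImplicit false

namespace Pool.Agent.Helper925_CV

open Pool.Agent.R612.TG

variable {d : ℕ}

/-- coarsenings of `P` inside `S` are trivial -/
def Pin (k : Fin d → ℕ) (P : Finset ((i : Fin d) → Fin (k i))) (K : ℕ)
    (S : Finset (Fin d → Fin K)) : Prop :=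
  ∀ c : (i : Fin d) → Fin (k i) → Fin K, (∀ i, Monotone (c i)) →
    (∀ x ∈ P, (fun i => c i (x i)) ∈ S) → ∀ x ∈ P, ∀ y ∈ P, ∀ i, c i (x i) = c i (y i)

theorem pin_avoids (k : Fin d → ℕ) (P : Finset ((i : Fin d) → Fin (k i))) (_hne : P.Nonempty)
    (hT : TrimP k P) (K m : ℕ) (S : Finset (Fin d → Fin K)) (hS : Pin k P K S)
    (A : Finset (Fin d → Fin m)) (hA : Avoids k P A) : Avoids k P (blk K m S A) := by
  rintro ⟨φ, hφ⟩
  apply hA
  have hlt : ∀ i (t : Fin (k i)), ((φ i t : Fin (K * m)) : ℕ) / m < K := by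
    intro i t
    apply Nat.div_lt_of_lt_mul
    exact lt_of_lt_of_eq (φ i t).isLt (mul_comm K m)
  set c : (i : Fin d) → Fin (k i) → Fin K := fun i t => ⟨((φ i t : Fin (K * m)) : ℕ) / m, hlt i t⟩
    with hc
  have hcm : ∀ i, Monotone (c i) := by
    intro i s t hst
    rw [Fin.le_def]
    exact Nat.div_le_div_right (Fin.le_def.1 ((φ i).monotone hst))
  -- block index and residue
  have hex : ∀ x ∈ P, ∃ s ∈ S, ∃ a ∈ A, ∀ i,
      ((φ i (x i) : Fin (K * m)) : ℕ) = (a i : ℕ) + m * (s i : ℕ) := by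
    intro x hx
    have h1 := hφ x hx
    unfold blk at h1
    rw [Finset.mem_image] at h1
    obtain ⟨⟨s, a⟩, hsa, h2⟩ := h1
    rw [Finset.mem_product] at hsa
    refine ⟨s, hsa.1, a, hsa.2, fun i => ?_⟩
    have h3 := congrFun h2 i
    simp only at h3
    rw [← h3]
    rfl
  have hcs : ∀ x ∈ P, ∃ a ∈ A, (fun i => c i (x i)) ∈ S ∧ ∀ i,
      ((φ i (x i) : Fin (K * m)) : ℕ) = (a i : ℕ) + m * (c i (x i) : ℕ) := by
    intro x hx
    obtain ⟨s, hs, a, ha, h⟩ := hex x hx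
    have e : (fun i => c i (x i)) = s := by
      funext i
      apply Fin.ext
      show ((φ i (x i) : Fin (K * m)) : ℕ) / m = s i
      rw [h i]
      have hm : 0 < m := lt_of_le_of_lt (Nat.zero_le _) (a i).isLt
      rw [Nat.add_mul_div_left _ _ hm, Nat.div_eq_of_lt (a i).isLt, Nat.zero_add]
    refine ⟨a, ha, by rw [e]; exact hs, fun i => ?_⟩
    rw [h i, ← e]
  have hconst := hS c hcm (fun x hx => (hcs x hx).choose_spec.2.1)
  have hψ : ∀ i, ∃ ψ : Fin (k i) ↪o Fin m, ∀ x ∈ P, ((ψ (x i) : Fin m) : ℕ) =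
      ((φ i (x i) : Fin (K * m)) : ℕ) % m := by
    intro i
    have hmod : ∀ x ∈ P, ((φ i (x i) : Fin (K * m)) : ℕ) =
        ((φ i (x i) : Fin (K * m)) : ℕ) % m + m * (c i (x i) : ℕ) ∧
        ((φ i (x i) : Fin (K * m)) : ℕ) % m < m := by
      intro x hx
      obtain ⟨a, -, -, h⟩ := hcs x hx
      have h1 : ((φ i (x i) : Fin (K * m)) : ℕ) % m = (a i : ℕ) := by
        rw [h i, Nat.add_mul_mod_self_left, Nat.mod_eq_of_lt (a i).isLt]
      rw [h1]
      exact ⟨h i, (a i).isLt⟩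
    have g1 : ∀ r ∈ (P.image fun x => x i : Finset (Fin (k i))),
        ((φ i r : Fin (K * m)) : ℕ) % m < m := by
      intro r hr
      obtain ⟨x, hx, rfl⟩ := Finset.mem_image.1 hr
      exact (hmod x hx).2
    have g2 : ∃ r ∈ (P.image fun x => x i : Finset (Fin (k i))), ((r : Fin (k i)) : ℕ) = 0 := by
      obtain ⟨x, hx, h0⟩ := (hT i).1
      exact ⟨x i, Finset.mem_image_of_mem _ hx, h0⟩
    have g3 : ∃ r ∈ (P.image fun x => x i : Finset (Fin (k i))),
        ((r : Fin (k i)) : ℕ) + 1 = k i := by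
      obtain ⟨x, hx, h0⟩ := (hT i).2
      exact ⟨x i, Finset.mem_image_of_mem _ hx, h0⟩
    have g4 : ∀ r ∈ (P.image fun x => x i : Finset (Fin (k i))),
        ∀ s ∈ (P.image fun x => x i : Finset (Fin (k i))), r ≤ s →
        ((φ i r : Fin (K * m)) : ℕ) % m + (((s : Fin (k i)) : ℕ) - ((r : Fin (k i)) : ℕ)) ≤
          ((φ i s : Fin (K * m)) : ℕ) % m := by
      intro r hr s hs hrs
      obtain ⟨x, hx, rfl⟩ := Finset.mem_image.1 hr
      obtain ⟨y, hy, rfl⟩ := Finset.mem_image.1 hs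
      have h1 := (hmod x hx).1
      have h2 := (hmod y hy).1
      have h3 := hconst x hx y hy i
      rw [h3] at h1
      have h4 : (x i : ℕ) ≤ (y i : ℕ) := Fin.le_def.1 hrs
      have h5 := BLKaux_gap (φ i) (x i) ((y i : ℕ) - (x i : ℕ)) (y i) (by omega)
      omega
    obtain ⟨ψ, hψ⟩ := extend (k i) m (P.image fun x => x i)
      (fun r => ((φ i r : Fin (K * m)) : ℕ) % m) g1 g2 g3 g4
    exact ⟨ψ, fun x hx => hψ (x i) (Finset.mem_image_of_mem _ hx)⟩
  choose ψ hψ using hψ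
  refine ⟨ψ, fun x hx => ?_⟩
  obtain ⟨a, ha, -, h⟩ := hcs x hx
  have e : (fun i => ψ i (x i)) = a := by
    funext i
    apply Fin.ext
    rw [hψ i x hx, h i, Nat.add_mul_mod_self_left, Nat.mod_eq_of_lt (a i).isLt]
  rw [e]
  exact ha

theorem pin_ex (k : Fin d → ℕ) (P : Finset ((i : Fin d) → Fin (k i))) (hne : P.Nonempty)
    (hT : TrimP k P) (K m : ℕ) (S : Finset (Fin d → Fin K)) (hS : Pin k P K S) :
    S.card * ex k P m ≤ ex k P (K * m) := by
  obtain ⟨A, hAc, hA⟩ := ex_att k P hne m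
  have h := ex_le k P (K * m) _ (pin_avoids k P hne hT K m S hS A hA)
  rwa [blk_card, hAc] at h

/-- the cyclic Latin hypercube -/
def lat (d N : ℕ) : Finset (Fin d → Fin N) :=
  Finset.univ.filter fun b => N ∣ ∑ i, (b i : ℕ)

theorem lat_card (d N : ℕ) (hd : 0 < d) (hN : 0 < N) : N ^ (d - 1) ≤ (lat d N).card := by
  obtain ⟨e, rfl⟩ : ∃ e, d = e + 1 := ⟨d - 1, by omega⟩
  have h1 : (Finset.univ : Finset (Fin e → Fin N)).card = N ^ (e + 1 - 1) := by
    rw [Finset.card_univ, Fintype.card_fun, Fintype.card_fin, Fintype.card_fin]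
    simp
  rw [← h1]
  have hlt : ∀ b : Fin e → Fin N, (N - (∑ i, (b i : ℕ)) % N) % N < N := fun b => Nat.mod_lt _ hN
  refine Finset.card_le_card_of_injOn
    (fun b => (Fin.cons (⟨(N - (∑ i, (b i : ℕ)) % N) % N, hlt b⟩ : Fin N) b : Fin (e + 1) → Fin N))
    ?_ ?_
  · intro b _
    rw [Finset.mem_coe, lat, Finset.mem_filter]
    refine ⟨Finset.mem_univ _, ?_⟩
    rw [Fin.sum_univ_succ]
    simp only [Fin.cons_zero, Fin.cons_succ]
    generalize ∑ i, (b i : ℕ) = s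
    have h2 : s % N < N := Nat.mod_lt _ hN
    by_cases h0 : s % N = 0
    · rw [h0, Nat.sub_zero, Nat.mod_self, Nat.zero_add]
      exact Nat.dvd_of_mod_eq_zero h0
    · rw [Nat.mod_eq_of_lt (by omega : N - s % N < N)]
      have h3 := Nat.div_add_mod s N
      exact ⟨s / N + 1, by rw [Nat.mul_add, Nat.mul_one]; omega⟩
  · intro b _ b' _ h
    have := congrArg Fin.tail h
    simpa using this

/-- rigidity modulo `N` -/
def Rig (k : Fin d → ℕ) (P : Finset ((i : Fin d) → Fin (k i))) (N : ℕ) : Prop :=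
  ∀ c : (i : Fin d) → Fin (k i) → ℕ, (∀ i, Monotone (c i)) → (∀ i t, c i t < N) →
    (∀ x ∈ P, N ∣ ∑ i, c i (x i)) → ∀ x ∈ P, ∀ y ∈ P, ∀ i, c i (x i) = c i (y i)

theorem rig_pin (k : Fin d → ℕ) (P : Finset ((i : Fin d) → Fin (k i))) (N : ℕ)
    (h : Rig k P N) : Pin k P N (lat d N) := by
  intro c hc hcS x hx y hy i
  apply Fin.ext
  exact h (fun i t => (c i t : ℕ)) (fun i s t hst => Fin.le_def.1 (hc i hst))
    (fun i t => (c i t).isLt) (fun z hz => (Finset.mem_filter.1 (hcS z hz)).2) x hx y hy i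

theorem rig_ex (hd : 0 < d) (k : Fin d → ℕ) (P : Finset ((i : Fin d) → Fin (k i)))
    (hne : P.Nonempty) (hT : TrimP k P) (N : ℕ) (hN : 0 < N) (h : Rig k P N) (m : ℕ) :
    N ^ (d - 1) * ex k P m ≤ ex k P (N * m) :=
  (Nat.mul_le_mul_right _ (lat_card d N hd hN)).trans
    (pin_ex k P hne hT N m (lat d N) (rig_pin k P N h))

end Pool.Agent.Helper925_CV
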