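import Pool.Agent.Helper925_CV.Cnt
import Pool.Agent.Helper925_CV.Det

/-! Almost all tuples of permutations satisfy the criterion. -/

set_option autoImplicit false

namespace Pool.Agent.Helper925_CV

open Finset

variable {d : ℕ}

theorem bad_x (k τ : ℕ) (hk : 0 < k) :
    ((univ.filter fun π : Fin d → Equiv.Perm (Fin k) =>
      ∃ s : Fin k, ∃ i j, i ≠ j ∧ Xt k τ (π i s) ∧ Xt k τ (π j s)).card : ℝ) ≤
      4 * (d : ℝ) ^ 2 * τ ^ 2 / k * ((k.factorial : ℕ) : ℝ) ^ d := by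
  classical
  obtain ⟨Ω, hΩ⟩ : ∃ Ω : ℝ, ((k.factorial : ℕ) : ℝ) ^ d = Ω := ⟨_, rfl⟩
  have hΩ0 : 0 ≤ Ω := by rw [← hΩ]; positivity
  have hk' : (0 : ℝ) < k := by exact_mod_cast hk
  set E : Finset (Fin k) := univ.filter fun t : Fin k => Xt k τ (t : ℕ) with hE
  have hEc : (E.card : ℝ) ≤ 2 * τ := by exact_mod_cast card_xt k τ
  have h1 : ∀ (s : Fin k) (p : Fin d × Fin d), p ∈ (univ : Finset (Fin d)).offDiag →
      ((univ.filter fun π : Fin d → Equiv.Perm (Fin k) =>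
        π p.1 s ∈ E ∧ π p.2 s ∈ E).card : ℝ) ≤ 4 * τ ^ 2 / k ^ 2 * Ω := by
    rintro s ⟨i, j⟩ hp
    have hij : i ≠ j := (mem_offDiag.1 hp).2.2
    simp only
    have h2 := tup1 (d := d) k hk (fun l => if l = i ∨ l = j then E else univ) s
    rw [hΩ] at h2
    have h3 : (univ.filter fun π : Fin d → Equiv.Perm (Fin k) => π i s ∈ E ∧ π j s ∈ E) =
        univ.filter fun π : Fin d → Equiv.Perm (Fin k) =>
          ∀ l, π l s ∈ (if l = i ∨ l = j then E else univ : Finset (Fin k)) := by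
      ext π
      simp only [mem_filter, mem_univ, true_and]
      constructor
      · rintro ⟨ha, hb⟩ l
        by_cases hl : l = i ∨ l = j
        · rw [if_pos hl]
          rcases hl with rfl | rfl
          · exact ha
          · exact hb
        · rw [if_neg hl]
          exact mem_univ _
      · intro h
        have ha := h i
        have hb := h j
        rw [if_pos (Or.inl rfl)] at ha
        rw [if_pos (Or.inr rfl)] at hb
        exact ⟨ha, hb⟩
    rw [h3, h2]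
    apply mul_le_mul_of_nonneg_right _ hΩ0
    have h4 : ∏ l : Fin d, (((if l = i ∨ l = j then E else univ : Finset (Fin k)).card : ℝ) / k) =
        ∏ l ∈ ({i, j} : Finset (Fin d)), ((E.card : ℝ) / k) := by
      rw [← Finset.prod_subset (Finset.subset_univ ({i, j} : Finset (Fin d)))]
      · refine Finset.prod_congr rfl fun l hl => ?_
        rw [Finset.mem_insert, Finset.mem_singleton] at hl
        rw [if_pos hl]
      · intro l _ hl
        rw [Finset.mem_insert, Finset.mem_singleton] at hl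
        rw [if_neg hl, Finset.card_univ, Fintype.card_fin, div_self hk'.ne']
    rw [h4, Finset.prod_const, Finset.card_pair hij, div_pow]
    apply div_le_div_of_nonneg_right _ (by positivity)
    nlinarith [(Nat.cast_nonneg _ : (0 : ℝ) ≤ (E.card : ℝ))]
  have h2 : (univ.filter fun π : Fin d → Equiv.Perm (Fin k) =>
      ∃ s : Fin k, ∃ i j, i ≠ j ∧ Xt k τ (π i s) ∧ Xt k τ (π j s)) ⊆
      (univ : Finset (Fin k)).biUnion fun s => (univ : Finset (Fin d)).offDiag.biUnion fun p =>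
        univ.filter fun π : Fin d → Equiv.Perm (Fin k) => π p.1 s ∈ E ∧ π p.2 s ∈ E := by
    intro π hπ
    obtain ⟨s, i, j, hij, ha, hb⟩ := (mem_filter.1 hπ).2
    refine mem_biUnion.2 ⟨s, mem_univ _, mem_biUnion.2 ⟨(i, j), ?_, ?_⟩⟩
    · exact mem_offDiag.2 ⟨mem_univ _, mem_univ _, hij⟩
    · refine mem_filter.2 ⟨mem_univ _, ?_, ?_⟩
      · exact mem_filter.2 ⟨mem_univ _, ha⟩
      · exact mem_filter.2 ⟨mem_univ _, hb⟩
  have h3 : ((univ.filter fun π : Fin d → Equiv.Perm (Fin k) =>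
      ∃ s : Fin k, ∃ i j, i ≠ j ∧ Xt k τ (π i s) ∧ Xt k τ (π j s)).card : ℝ) ≤
      ∑ s : Fin k, ∑ p ∈ (univ : Finset (Fin d)).offDiag,
        ((univ.filter fun π : Fin d → Equiv.Perm (Fin k) => π p.1 s ∈ E ∧ π p.2 s ∈ E).card : ℝ) := by
    have h4 := (Finset.card_le_card h2).trans Finset.card_biUnion_le
    have h5 := h4.trans (Finset.sum_le_sum fun s _ => Finset.card_biUnion_le)
    exact_mod_cast h5
  refine h3.trans ?_
  have h6 : ∑ s : Fin k, ∑ p ∈ (univ : Finset (Fin d)).offDiag,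
        ((univ.filter fun π : Fin d → Equiv.Perm (Fin k) =>
          π p.1 s ∈ E ∧ π p.2 s ∈ E).card : ℝ) ≤
      ∑ s : Fin k, ∑ p ∈ (univ : Finset (Fin d)).offDiag, 4 * (τ : ℝ) ^ 2 / k ^ 2 * Ω :=
    Finset.sum_le_sum fun s _ => Finset.sum_le_sum fun p hp => h1 s p hp
  refine h6.trans ?_
  rw [Finset.sum_const, Finset.sum_const, Finset.card_univ, Fintype.card_fin, nsmul_eq_mul,
    nsmul_eq_mul, hΩ]
  have h7 : (((univ : Finset (Fin d)).offDiag.card : ℕ) : ℝ) ≤ (d : ℝ) ^ 2 := by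
    have : (univ : Finset (Fin d)).offDiag.card ≤ d ^ 2 := by
      rw [offDiag_card, card_univ, Fintype.card_fin, sq]
      omega
    exact_mod_cast this
  have h8 : (k : ℝ) * ((((univ : Finset (Fin d)).offDiag.card : ℕ) : ℝ) *
      (4 * (τ : ℝ) ^ 2 / k ^ 2 * Ω)) =
      (((univ : Finset (Fin d)).offDiag.card : ℕ) : ℝ) * (4 * (τ : ℝ) ^ 2 / k * Ω) := by
    field_simp
  rw [h8]
  have h9 : 4 * (d : ℝ) ^ 2 * τ ^ 2 / k * Ω = (d : ℝ) ^ 2 * (4 * (τ : ℝ) ^ 2 / k * Ω) := by ring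
  rw [h9]
  exact mul_le_mul_of_nonneg_right h7 (by positivity)

/-- an interval of positions -/
def iv (k a b : ℕ) : Finset (Fin k) := univ.filter fun t : Fin k => a ≤ (t : ℕ) ∧ (t : ℕ) < b

theorem iv_card (k a b : ℕ) (hb : b ≤ k) : (iv k a b).card = b - a := by
  rw [← Finset.card_map Fin.valEmbedding]
  have : (iv k a b).map Fin.valEmbedding = Finset.Ico a b := by
    ext t
    rw [mem_map, mem_Ico]
    constructor
    · rintro ⟨u, hu, rfl⟩
      exact (mem_filter.1 hu).2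
    · rintro ⟨h1, h2⟩
      exact ⟨⟨t, by omega⟩, mem_filter.2 ⟨mem_univ _, h1, h2⟩, rfl⟩
  rw [this, Nat.card_Ico]

theorem bad_y (k τ w M : ℕ) (_hd : 0 < d) (hk : 1 < k) (hM : 0 < M) (_hτk : τ ≤ k)
    (hw : (k : ℝ) / (2 * M) ≤ w)
    (A : Finset (Fin k)) (hA : A.card = τ) (B : Finset (Fin k)) (hB : B.card = w) (i : Fin d) :
    ((univ.filter fun π : Fin d → Equiv.Perm (Fin k) =>
      ¬ ∃ s, π i s ∈ A ∧ ∀ j, j ≠ i → π j s ∈ B).card : ℝ) * τ ≤
      (2 * (M : ℝ)) ^ (d - 1) * ((k.factorial : ℕ) : ℝ) ^ d := by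
  classical
  obtain ⟨Ω, hΩ⟩ : ∃ Ω : ℝ, ((k.factorial : ℕ) : ℝ) ^ d = Ω := ⟨_, rfl⟩
  have hΩ0 : 0 ≤ Ω := by rw [← hΩ]; positivity
  have hk' : (0 : ℝ) < k := by exact_mod_cast (by omega : 0 < k)
  have hM' : (0 : ℝ) < M := by exact_mod_cast hM
  have h1 := miss (d := d) k hk (fun l => if l = i then A else B)
  rw [hΩ] at h1 ⊢
  have h2 : (univ.filter fun π : Fin d → Equiv.Perm (Fin k) =>
      ¬ ∃ s, π i s ∈ A ∧ ∀ j, j ≠ i → π j s ∈ B) =
      univ.filter fun π : Fin d → Equiv.Perm (Fin k) =>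
        ¬ ∃ s, ∀ j, π j s ∈ (if j = i then A else B : Finset (Fin k)) := by
    ext π
    simp only [mem_filter, mem_univ, true_and, not_iff_not]
    constructor
    · rintro ⟨s, ha, hb⟩
      refine ⟨s, fun j => ?_⟩
      by_cases hj : j = i
      · rw [if_pos hj, hj]; exact ha
      · rw [if_neg hj]; exact hb j hj
    · rintro ⟨s, h⟩
      refine ⟨s, ?_, fun j hj => ?_⟩
      · have := h i
        rwa [if_pos rfl] at this
      · have := h j
        rwa [if_neg hj] at this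
  rw [h2]
  set x := ((univ.filter fun π : Fin d → Equiv.Perm (Fin k) =>
        ¬ ∃ s, ∀ j, π j s ∈ (if j = i then A else B : Finset (Fin k))).card : ℝ) with hx
  have hx0 : 0 ≤ x := Nat.cast_nonneg _
  have h3 : ∏ l : Fin d, (((if l = i then A else B : Finset (Fin k)).card : ℝ) / k) =
      ((τ : ℝ) / k) * ((w : ℝ) / k) ^ (d - 1) := by
    rw [← Finset.mul_prod_erase _ _ (mem_univ i), if_pos rfl, hA]
    congr 1
    rw [Finset.prod_congr rfl (fun l hl => by rw [if_neg (ne_of_mem_erase hl), hB] :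
      ∀ l ∈ univ.erase i, (((if l = i then A else B : Finset (Fin k)).card : ℝ) / k) = (w : ℝ) / k)]
    rw [Finset.prod_const, card_erase_of_mem (mem_univ i), card_univ, Fintype.card_fin]
  rw [h3] at h1
  have h4 : (1 : ℝ) / (2 * M) ≤ w / k := by
    rw [div_le_div_iff₀ (by positivity) hk']
    rw [div_le_iff₀ (by positivity)] at hw
    linarith
  have h5 : ((1 : ℝ) / (2 * M)) ^ (d - 1) ≤ ((w : ℝ) / k) ^ (d - 1) :=
    pow_le_pow_left₀ (by positivity) h4 _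
  have h6 : x * (τ * ((1 : ℝ) / (2 * M)) ^ (d - 1)) ≤ Ω := by
    refine le_trans ?_ h1
    apply mul_le_mul_of_nonneg_left _ hx0
    have h7 : (k : ℝ) * ((τ : ℝ) / k * ((w : ℝ) / k) ^ (d - 1)) = τ * ((w : ℝ) / k) ^ (d - 1) := by
      field_simp
    rw [h7]
    exact mul_le_mul_of_nonneg_left h5 (Nat.cast_nonneg _)
  have h8 : (2 * (M : ℝ)) ^ (d - 1) * ((1 : ℝ) / (2 * M)) ^ (d - 1) = 1 := by
    rw [← mul_pow]
    have : 2 * (M : ℝ) * (1 / (2 * M)) = 1 := by field_simp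
    rw [this, one_pow]
  calc x * τ = (2 * (M : ℝ)) ^ (d - 1) * (x * (τ * ((1 : ℝ) / (2 * M)) ^ (d - 1))) := by
        rw [show (2 * (M : ℝ)) ^ (d - 1) * (x * (τ * ((1 : ℝ) / (2 * M)) ^ (d - 1))) =
          x * τ * ((2 * (M : ℝ)) ^ (d - 1) * ((1 : ℝ) / (2 * M)) ^ (d - 1)) by ring, h8, mul_one]
    _ ≤ (2 * (M : ℝ)) ^ (d - 1) * Ω := mul_le_mul_of_nonneg_left h6 (by positivity)

/-- the tuple satisfies the criterion -/
def Good (k τ w M : ℕ) (π : Fin d → Equiv.Perm (Fin k)) : Prop :=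
  (∀ s : Fin k, ∀ i j, i ≠ j → ¬ (Xt k τ (π i s) ∧ Xt k τ (π j s))) ∧
    (∀ i, ∀ r < M, ∃ s, (π i s : ℕ) < τ ∧
      ∀ j, j ≠ i → r * w ≤ (π j s : ℕ) ∧ (π j s : ℕ) < (r + 1) * w) ∧
    (∀ i, ∀ r < M, ∃ s, k ≤ (π i s : ℕ) + τ ∧
      ∀ j, j ≠ i → r * w ≤ (π j s : ℕ) ∧ (π j s : ℕ) < (r + 1) * w)

open Classical in
theorem bad (k τ w M : ℕ) (hd : 0 < d) (hk : 1 < k) (hM : 0 < M) (hτ : 0 < τ) (hτk : τ ≤ k)
    (hw : (k : ℝ) / (2 * M) ≤ w) (hMw : M * w ≤ k) :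
    ((univ.filter fun π : Fin d → Equiv.Perm (Fin k) => ¬ Good k τ w M π).card : ℝ) ≤
      (4 * (d : ℝ) ^ 2 * τ ^ 2 / k + 2 * d * M * (2 * (M : ℝ)) ^ (d - 1) / τ) *
        ((k.factorial : ℕ) : ℝ) ^ d := by
  have hx := bad_x (d := d) k τ (by omega)
  have hτ' : (0 : ℝ) < τ := by exact_mod_cast hτ
  have hblk : ∀ r, r < M → (r + 1) * w ≤ k := fun r hr =>
    (Nat.mul_le_mul_right w (by omega : r + 1 ≤ M)).trans hMw
  have hy : ∀ (A : Finset (Fin k)), A.card = τ → ∀ i : Fin d, ∀ r < M,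
      ((univ.filter fun π : Fin d → Equiv.Perm (Fin k) =>
      ¬ ∃ s, π i s ∈ A ∧ ∀ j, j ≠ i → π j s ∈ iv k (r * w) ((r + 1) * w)).card : ℝ) ≤
      (2 * (M : ℝ)) ^ (d - 1) / τ * ((k.factorial : ℕ) : ℝ) ^ d := by
    intro A hA i r hr
    have hB : (iv k (r * w) ((r + 1) * w)).card = w := by
      rw [iv_card k _ _ (hblk r hr), Nat.add_mul, Nat.one_mul]
      omega
    have h := bad_y k τ w M hd hk hM hτk hw A hA _ hB i
    rw [div_mul_eq_mul_div, le_div_iff₀ hτ']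
    exact h
  obtain ⟨Ω, hΩ⟩ : ∃ Ω : ℝ, ((k.factorial : ℕ) : ℝ) ^ d = Ω := ⟨_, rfl⟩
  have hΩ0 : 0 ≤ Ω := by rw [← hΩ]; positivity
  simp only [hΩ] at hx hy ⊢
  have hA1 : (iv k 0 τ).card = τ := by rw [iv_card k _ _ hτk]; omega
  have hA2 : (iv k (k - τ) k).card = τ := by rw [iv_card k _ _ le_rfl]; omega
  have hsub : (univ.filter fun π : Fin d → Equiv.Perm (Fin k) => ¬ Good k τ w M π) ⊆
      (univ.filter fun π : Fin d → Equiv.Perm (Fin k) =>
        ∃ s : Fin k, ∃ i j, i ≠ j ∧ Xt k τ (π i s) ∧ Xt k τ (π j s)) ∪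
      (((univ : Finset (Fin d)) ×ˢ Finset.range M).biUnion fun q =>
        univ.filter fun π : Fin d → Equiv.Perm (Fin k) =>
        ¬ ∃ s, π q.1 s ∈ iv k 0 τ ∧
          ∀ j, j ≠ q.1 → π j s ∈ iv k (q.2 * w) ((q.2 + 1) * w)) ∪
      (((univ : Finset (Fin d)) ×ˢ Finset.range M).biUnion fun q =>
        univ.filter fun π : Fin d → Equiv.Perm (Fin k) =>
        ¬ ∃ s, π q.1 s ∈ iv k (k - τ) k ∧
          ∀ j, j ≠ q.1 → π j s ∈ iv k (q.2 * w) ((q.2 + 1) * w)) := by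
    intro π hπ
    have h := (mem_filter.1 hπ).2
    by_contra hno
    rw [mem_union, mem_union, not_or, not_or] at hno
    obtain ⟨⟨n1, n2⟩, n3⟩ := hno
    apply h
    refine ⟨?_, ?_, ?_⟩
    · rintro s i j hij ⟨ha, hb⟩
      exact n1 (mem_filter.2 ⟨mem_univ _, s, i, j, hij, ha, hb⟩)
    · intro i r hr
      by_contra hs
      apply n2
      refine mem_biUnion.2 ⟨(i, r), mem_product.2 ⟨mem_univ _, mem_range.2 hr⟩,
        mem_filter.2 ⟨mem_univ _, ?_⟩⟩
      rintro ⟨s, ha, hb⟩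
      exact hs ⟨s, (mem_filter.1 ha).2.2, fun j hj => (mem_filter.1 (hb j hj)).2⟩
    · intro i r hr
      by_contra hs
      apply n3
      refine mem_biUnion.2 ⟨(i, r), mem_product.2 ⟨mem_univ _, mem_range.2 hr⟩,
        mem_filter.2 ⟨mem_univ _, ?_⟩⟩
      rintro ⟨s, ha, hb⟩
      refine hs ⟨s, ?_, fun j hj => (mem_filter.1 (hb j hj)).2⟩
      have := (mem_filter.1 ha).2.1
      simp only at this
      omega
  have hbi : ∀ A : Finset (Fin k), A.card = τ →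
      (((((univ : Finset (Fin d)) ×ˢ Finset.range M).biUnion fun q =>
        univ.filter fun π : Fin d → Equiv.Perm (Fin k) =>
        ¬ ∃ s, π q.1 s ∈ A ∧
          ∀ j, j ≠ q.1 → π j s ∈ iv k (q.2 * w) ((q.2 + 1) * w)).card : ℕ) : ℝ) ≤
      d * M * ((2 * (M : ℝ)) ^ (d - 1) / τ * Ω) := by
    intro A hA
    have h1 : (((((univ : Finset (Fin d)) ×ˢ Finset.range M).biUnion fun q =>
        univ.filter fun π : Fin d → Equiv.Perm (Fin k) =>
        ¬ ∃ s, π q.1 s ∈ A ∧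
          ∀ j, j ≠ q.1 → π j s ∈ iv k (q.2 * w) ((q.2 + 1) * w)).card : ℕ) : ℝ) ≤
        ∑ q ∈ (univ : Finset (Fin d)) ×ˢ Finset.range M,
          ((univ.filter fun π : Fin d → Equiv.Perm (Fin k) =>
        ¬ ∃ s, π q.1 s ∈ A ∧
          ∀ j, j ≠ q.1 → π j s ∈ iv k (q.2 * w) ((q.2 + 1) * w)).card : ℝ) := by
      exact_mod_cast Finset.card_biUnion_le
    refine h1.trans ((Finset.sum_le_sum fun q hq =>
      hy A hA q.1 q.2 (mem_range.1 (mem_product.1 hq).2)).trans (le_of_eq ?_))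
    rw [Finset.sum_const, card_product, card_univ, Fintype.card_fin, card_range, nsmul_eq_mul]
    push_cast
    ring
  have h1 := (Finset.card_le_card hsub).trans (Finset.card_union_le _ _)
  have h2 := h1.trans (Nat.add_le_add_right (Finset.card_union_le _ _) _)
  have h3 : ((univ.filter fun π : Fin d → Equiv.Perm (Fin k) => ¬ Good k τ w M π).card : ℝ) ≤ _ :=
    Nat.cast_le.2 h2
  push_cast at h3
  have h4 := hbi _ hA1
  have h5 := hbi _ hA2
  have e : (4 * (d : ℝ) ^ 2 * τ ^ 2 / k + 2 * d * M * (2 * (M : ℝ)) ^ (d - 1) / τ) * Ω =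
      4 * (d : ℝ) ^ 2 * τ ^ 2 / k * Ω + d * M * ((2 * (M : ℝ)) ^ (d - 1) / τ * Ω) +
        d * M * ((2 * (M : ℝ)) ^ (d - 1) / τ * Ω) := by ring
  rw [e]
  linarith

end Pool.Agent.Helper925_CV
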